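import Pool.Agent.H4.SE.Targets

/-!
# Module IB (board sae_modules): the larger system is uniformly distributed
-/

set_option autoImplicit false

open Finset Equiv

namespace Pool.Agent.H42.SAE

open Pool.Agent.H4.SE

/-- decomposition of a permutation of `Option β` -/
def dec (β : Type) [DecidableEq β] : (Perm β × Option β) ≃ Perm (Option β) :=
  (Equiv.prodComm _ _).trans ((Equiv.prodCongr (Equiv.refl _) (Equiv.inv (Perm β))).trans
    ((Equiv.Perm.decomposeOption (α := β)).symm.trans (Equiv.inv _)))

theorem dec_apply {β : Type} [DecidableEq β] (σ : Perm β) (o : Option β) :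
    dec β (σ, o) = optionCongr σ * swap none o := by
  have h : dec β (σ, o) = (swap none o * optionCongr σ⁻¹)⁻¹ := rfl
  rw [h, mul_inv_rev, swap_inv]
  congr 1

/-- the points of the fibre -/
def Fx {r k : ℕ} {β : Type} [DecidableEq β] (x : Om r k (Option β))
    (b : (Fin r → β) × (Fin k → β)) : Oh r k β :=
  (fun i => ((dec β).symm (x.1 i)).1, fun i => (((dec β).symm (x.1 i)).2, b.1 i),
    fun m => (x.2 m, b.2 m))

theorem Fx_injective {r k : ℕ} {β : Type} [DecidableEq β] (x : Om r k (Option β)) :
    Function.Injective (Fx x) := by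
  rintro ⟨b, b'⟩ ⟨c, c'⟩ h
  simp only [Fx, Prod.mk.injEq] at h
  obtain ⟨-, h1, h2⟩ := h
  refine Prod.ext (funext fun i => ?_) (funext fun m => ?_)
  · exact congrArg Prod.snd (congrFun h1 i)
  · exact congrArg Prod.snd (congrFun h2 m)

theorem big_eq_iff {r k : ℕ} {β : Type} [DecidableEq β] (x : Om r k (Option β))
    (ω : Oh r k β) : big ω = x ↔ ∃ b, Fx x b = ω := by
  constructor
  · rintro rfl
    refine ⟨(fun i => (ω.2.1 i).2, fun m => (ω.2.2 m).2), ?_⟩
    have h : ∀ i, (dec β).symm ((big ω).1 i) = (ω.1 i, (ω.2.1 i).1) := by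
      intro i
      rw [Equiv.symm_apply_eq, dec_apply]
      rfl
    refine Prod.ext ?_ (Prod.ext ?_ ?_)
    · funext i
      change ((dec β).symm ((big ω).1 i)).1 = _
      rw [h]
    · funext i
      change (((dec β).symm ((big ω).1 i)).2, (ω.2.1 i).2) = _
      rw [h]
    · rfl
  · rintro ⟨b, rfl⟩
    refine Prod.ext ?_ rfl
    funext i
    change optionCongr ((dec β).symm (x.1 i)).1 * swap none ((dec β).symm (x.1 i)).2 = x.1 i
    rw [← dec_apply]
    exact (dec β).apply_symm_apply (x.1 i)

theorem pf_IB : T_IB := by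
  intro r k β _ _ _
  refine ⟨Fintype.card ((Fin r → β) × (Fin k → β)), Fintype.card_pos, fun x => ?_⟩
  have h : (univ.filter fun ω : Oh r k β => big ω = x) = univ.map ⟨Fx x, Fx_injective x⟩ := by
    ext ω
    simp only [mem_filter, mem_univ, true_and, mem_map, Function.Embedding.coeFn_mk]
    exact big_eq_iff x ω
  rw [h, card_map, card_univ]

end Pool.Agent.H42.SAE
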